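import Pool.Agent.Lib.MP_e7c4c5_co.Lt.Word

/-! Twins with the same type, the graph of words and its tree decomposition. -/

set_option autoImplicit false

namespace Pool.Agent.Lib.MP_e7c4c5_co.Lt

variable {α κ : Type}

lemma bd_finite [Finite α] (n L : ℕ) : {w : List (ℤ × α) | Bd n L w}.Finite := by
  refine ((List.finite_length_le (Set.Icc (-n : ℤ) n × α) L).image
    (List.map fun x => (x.1.1, x.2))).subset fun w hw => ?_
  exact ⟨w.attach.map fun x => (⟨x.1.1, hw.2 x.1 x.2⟩, x.1.2), by simpa using hw.1, by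
    simp [Function.comp_def, List.attach_map_subtype_val]⟩

/-- The colours seen from `r` along the chosen twins. -/
def ty (c : List (ℤ × α) → κ) (tw : (α → List (ℤ × Unit) → κ) → Bool → α) :
    ℕ → List (ℤ × α) → List (ℤ × Unit) → κ
  | k + 1, r, a :: s => ty c tw k ((a.1, tw (fun j => ty c tw k ((a.1, j) :: r)) false) :: r) s
  | _, r, _ => c r

/-- Replace the twin indices, letter by letter. -/
def emb (f : ℕ → ℤ → List (ℤ × α) → Bool → α) : List (ℤ × Bool) → List (ℤ × α)
  | [] => []
  | x :: w => (x.1, f w.length x.1 (emb f w) x.2) :: emb f w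

variable {f : ℕ → ℤ → List (ℤ × α) → Bool → α}

lemma emb_fst (w : List (ℤ × Bool)) : (emb f w).map Prod.fst = w.map Prod.fst := by
  induction w with
  | nil => rfl
  | cons x w ih => simp [emb, ih]

lemma emb_lay (w : List (ℤ × Bool)) : lay (emb f w) = lay w := by
  cases w <;> rfl

lemma emb_cur (w : List (ℤ × Bool)) (a : ℤ) : cur (emb f w) a = emb f (cur w a) := by
  induction w with
  | nil => rfl
  | cons x w ih =>
    rw [emb, cur, cur]
    split_ifs
    exacts [rfl, ih]

lemma emb_inj (hf : ∀ k a r, f k a r false ≠ f k a r true) : Function.Injective (emb f) := by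
  intro w w' h
  induction w generalizing w' with
  | nil => cases w' <;> simp_all [emb]
  | cons x w ih =>
    obtain _ | ⟨y, w'⟩ := w'
    · simp [emb] at h
    · rw [emb, emb, List.cons.injEq, Prod.mk.injEq] at h
      obtain rfl := ih h.2
      obtain ⟨a, b⟩ := x
      obtain ⟨a', b'⟩ := y
      obtain rfl : a = a' := h.1.1
      have := hf w.length a (emb f w)
      cases b <;> cases b' <;> grind

lemma bd_of_fst {β : Type} {n L : ℕ} {w : List (ℤ × α)} {w' : List (ℤ × β)} (h : Bd n L w)
    (e : w'.map Prod.fst = w.map Prod.fst) : Bd n L w' := by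
  refine ⟨by simpa [← List.length_map (as := w') Prod.fst, e] using h.1, fun x hx => ?_⟩
  obtain ⟨y, hy, k⟩ := List.mem_map.1 (e ▸ List.mem_map_of_mem (f := Prod.fst) hx)
  exact k ▸ h.2 y hy

/-- With many twins every colouring has a repetitive path. -/
theorem exists_sq' (q : ℕ) : ∃ n L M : ℕ, ∀ c : List (ℤ × Fin M) → Fin q, Sq Rel c (Bd n L) := by
  classical
  obtain ⟨n, L, h⟩ := exists_sq q
  have := (bd_finite (α := Unit) n L).fintype
  refine ⟨n, L, Fintype.card ({s : List (ℤ × Unit) | Bd n L s} → Fin q) + 1, fun c => ?_⟩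
  choose t0 t1 ht ht' using fun F : Fin _ → List (ℤ × Unit) → Fin q =>
    Fintype.exists_ne_map_eq_of_card_lt (fun (j : Fin (Fintype.card
      ({s : List (ℤ × Unit) | Bd n L s} → Fin q) + 1)) (s : {s | Bd n L s}) => F j s.1) (by simp)
  let tw := fun F (b : Bool) => if b then t1 F else t0 F
  let f := fun k a r => tw fun j => ty c tw (L - k - 1) ((a, j) :: r)
  have key : ∀ (w : List (ℤ × Bool)) (s : List (ℤ × Unit)),
      Bd n L ((w.map fun x => (x.1, ())).reverse ++ s) →
      ty c tw (L - w.length) (emb f w) s = ty c tw L [] ((w.map fun x => (x.1, ())).reverse ++ s) := by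
    intro w
    induction w with
    | nil => exact fun _ _ => rfl
    | cons x w ih =>
      intro s hs
      rw [List.map_cons, List.reverse_cons, List.append_assoc, List.singleton_append] at hs ⊢
      have h1 := hs.1
      rw [← ih _ hs, show L - w.length = L - w.length - 1 + 1 by simp at h1; omega, ty]
      have h2 := congrFun (ht' fun j => ty c tw (L - w.length - 1) ((x.1, j) :: emb f w))
        ⟨s, hs.suffix ((List.suffix_cons _ _).trans (List.suffix_append _ _))⟩
      obtain ⟨a, _ | _⟩ := x
      exacts [rfl, h2.symm]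
  obtain ⟨l, l', k1, k2, k3, k4, k5⟩ := h fun s => ty c tw L [] (s.map (·, ())).reverse
  have col : ∀ w, Bd n L w → c (emb f w) = ty c tw L [] ((w.map Prod.fst).map (·, ())).reverse := by
    intro w hw
    have := key w [] ⟨by simpa using hw.1, by have := hw.2; grind⟩
    rw [List.append_nil] at this
    rw [List.map_map]
    refine Eq.trans ?_ this
    cases L - w.length <;> rfl
  have rel : ∀ u v, Rel u v → Rel (emb f u) (emb f v) := fun u v r =>
    ⟨by rw [emb_lay, emb_cur, r.1], by simpa [emb_lay] using r.2⟩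
  refine ⟨l.map (emb f), l'.map (emb f), by simpa using k1, ?_, ?_, ?_, ?_⟩
  · rw [← List.map_append, List.isChain_map]
    exact k2.imp fun u v r => r.imp (rel u v) (rel v u)
  · rw [← List.map_append]
    exact k3.map (emb_inj fun k a r => ht _)
  · rw [← List.map_append]
    intro v hv
    obtain ⟨u, hu, rfl⟩ := List.mem_map.1 hv
    exact bd_of_fst (k4 u hu) (emb_fst u)
  · rw [List.map_map, List.map_map]
    exact (List.map_congr_left fun u hu => col u (k4 u (List.mem_append_left _ hu))).trans
      (k5.trans (List.map_congr_left fun u hu => (col u (k4 u (List.mem_append_right _ hu))).symm))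

/-- The tree of words. -/
def tr (P : List (ℤ × α) → Prop) : SimpleGraph {w // P w} :=
  SimpleGraph.fromRel fun u v => u.1 = v.1.tail

lemma tr_acyclic (P : List (ℤ × α) → Prop) : (tr P).IsAcyclic := by
  have key : ∀ u v : {w // P w}, u ≠ v → u.1 = v.1.tail → (tr P).IsBridge s(v, u) := by
    intro u v ne e r
    rw [SimpleGraph.reachable_iff_reflTransGen] at r
    have : v.1 <:+ u.1 := by
      have : ∀ w, Relation.ReflTransGen ((tr P).deleteEdges {s(v, u)}).Adj v w → v.1 <:+ w.1 := by
        intro w r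
        induction r with
        | refl => exact List.suffix_rfl
        | @tail w w' _ a ih =>
          obtain ⟨⟨-, k | k⟩, k'⟩ := SimpleGraph.deleteEdges_adj.1 a
          · exact ih.trans (k ▸ List.tail_suffix _)
          · obtain ⟨t, ht⟩ := ih
            obtain _ | ⟨x, t⟩ := t
            · obtain rfl : v = w := Subtype.ext ht
              obtain rfl : w' = u := Subtype.ext (k.trans e.symm)
              exact absurd rfl k'
            · exact ⟨t, by rw [k, ← ht]; rfl⟩
      exact this u r
    exact ne (Subtype.ext ((e ▸ List.tail_suffix _ : u.1 <:+ v.1).eq_of_length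
      ((e ▸ List.tail_suffix _ : u.1 <:+ v.1).length_le.antisymm this.length_le)))
  rw [SimpleGraph.isAcyclic_iff_forall_adj_isBridge]
  rintro u v ⟨ne, e | e⟩
  · rw [Sym2.eq_swap]
    exact key u v ne e
  · exact key v u ne.symm e

lemma tr_conn {n L : ℕ} (u : {w : List (ℤ × α) // Bd n L w}) :
    ((tr (Bd n L)).induce {w | cur w.1 (lay u.1) = u.1}).Connected := by
  refine (SimpleGraph.connected_iff_exists_forall_reachable _).2 ⟨⟨u, cur_lay _⟩, ?_⟩
  rintro ⟨⟨w, hw⟩, e⟩
  induction w with
  | nil =>
    obtain rfl : u = ⟨[], hw⟩ := Subtype.ext e.symm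
    rfl
  | cons x w ih =>
    by_cases k : x.1 = lay u.1
    · obtain rfl : u = ⟨x :: w, hw⟩ := Subtype.ext (e.symm.trans (if_pos k))
      rfl
    · exact (ih (hw.suffix (List.suffix_cons x w)) ((if_neg k).symm.trans e)).trans
        (SimpleGraph.Adj.reachable ⟨by simp, Or.inl rfl⟩)

lemma tr_tree (n L : ℕ) : (tr (α := α) (Bd n L)).IsTree := by
  refine ⟨(SimpleGraph.connected_iff_exists_forall_reachable _).2 ⟨⟨[], by simp [Bd]⟩, ?_⟩,
    tr_acyclic _⟩
  rintro ⟨w, hw⟩
  induction w with
  | nil => rfl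
  | cons x w ih =>
    exact (ih (hw.suffix (List.suffix_cons x w))).trans
      (SimpleGraph.Adj.reachable ⟨by simp, Or.inl rfl⟩)

theorem main (c : ℕ) : ∃ (V : Type) (_ : Fintype V) (G : SimpleGraph V) (l : V → ℤ) (ι : Type)
    (_ : Fintype ι) (T : SimpleGraph ι) (B : ι → Set V),
    (∀ u v, G.Adj u v → |l u - l v| = 1) ∧ T.IsTree ∧
    (∀ u v, G.Adj u v → ∃ i, u ∈ B i ∧ v ∈ B i) ∧
    (∀ v, (T.induce {i | v ∈ B i}).Connected) ∧ (∀ i, Set.InjOn l (B i)) ∧
    ¬ ∃ φ : V → Fin c, ∀ (a b : V) (P : G.Walk a b), P.IsPath →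
      ∀ n : ℕ, 0 < n → P.support.length = 2 * n →
        (P.support.take n).map φ ≠ (P.support.drop n).map φ := by
  classical
  obtain ⟨n, L, M, h⟩ := exists_sq' c
  have := (bd_finite (α := Fin M) n L).fintype
  refine ⟨{w // Bd n L w}, this, SimpleGraph.fromRel fun u v => Rel u.1 v.1, fun v => lay v.1,
    {w // Bd n L w}, this, tr _, fun w => {u | cur w.1 (lay u.1) = u.1}, ?_, tr_tree n L, ?_,
    tr_conn, fun w u hu v hv e => Subtype.ext (hu.symm.trans ((congrArg (cur w.1) e).trans hv)), ?_⟩
  · rintro u v ⟨-, ⟨-, k⟩ | ⟨-, k⟩⟩ <;> grind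
  · rintro u v ⟨-, ⟨k, -⟩ | ⟨k, -⟩⟩
    exacts [⟨v, k, cur_lay _⟩, ⟨u, cur_lay _, k⟩]
  · rintro ⟨φ, hφ⟩
    obtain ⟨l, l', k1, k2, k3, k4, k5⟩ := h fun w =>
      if hw : Bd n L w then φ ⟨w, hw⟩ else φ ⟨[], by simp [Bd]⟩
    lift l to List {w : List (ℤ × Fin M) // Bd n L w} using fun w hw => k4 w (List.mem_append_left _ hw)
    lift l' to List {w : List (ℤ × Fin M) // Bd n L w} using fun w hw => k4 w (List.mem_append_right _ hw)
    rw [← List.map_append] at k2 k3
    have e : l.map φ = l'.map φ := by
      rw [List.map_map, List.map_map] at k5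
      exact (List.map_congr_left fun u _ => dif_pos u.2).symm.trans
        (k5.trans (List.map_congr_left fun u _ => dif_pos u.2))
    have len : l.length = l'.length := by simpa using congrArg List.length e
    have ch : (l ++ l').IsChain (SimpleGraph.fromRel fun u v : {w // Bd n L w} => Rel u.1 v.1).Adj :=
      (List.isChain_map _ |>.1 k2).imp fun u v r => ⟨by
        rintro rfl
        have := (r.elim id id).2
        omega, r⟩
    have l0 : l ≠ [] := fun e => k1 (congrArg _ e)
    refine hφ _ _ (.ofSupport (l ++ l') (by simp [l0]) ch) ?_ l.length (List.length_pos_iff.2 l0)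
      (by simp [SimpleGraph.Walk.support_ofSupport, len]; omega)
      (by simp [SimpleGraph.Walk.support_ofSupport, e])
    rw [SimpleGraph.Walk.isPath_def, SimpleGraph.Walk.support_ofSupport]
    exact k3.of_map _

end Pool.Agent.Lib.MP_e7c4c5_co.Lt
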