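import Mathlib

/-! Words over layers with twin indices, and repetitive paths in the graph of words. -/

set_option autoImplicit false

namespace Pool.Agent.Lib.MP_e7c4c5_co.Lt

variable {α β κ V : Type}

/-- The layer of the newest letter. -/
def lay : List (ℤ × α) → ℤ
  | [] => 0
  | x :: _ => x.1

/-- The part of the word that ends with the newest letter of layer `a`. -/
def cur : List (ℤ × α) → ℤ → List (ℤ × α)
  | [], _ => []
  | x :: w, a => if x.1 = a then x :: w else cur w a

/-- The vertex `u` is current when `v` is created, in a neighbouring layer. -/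
def Rel (u v : List (ℤ × α)) : Prop :=
  cur v (lay u) = u ∧ (lay u = lay v + 1 ∨ lay v = lay u + 1)

/-- A repetitively coloured path inside `P`. -/
def Sq (R : V → V → Prop) (c : V → κ) (P : V → Prop) : Prop :=
  ∃ l l' : List V, l ≠ [] ∧ (l ++ l').IsChain (fun u v => R u v ∨ R v u) ∧ (l ++ l').Nodup ∧
    (∀ v ∈ l ++ l', P v) ∧ l.map c = l'.map c

lemma cur_lay (v : List (ℤ × α)) : cur v (lay v) = v := by
  cases v <;> simp [cur, lay]

lemma cur_suffix (w : List (ℤ × α)) (a : ℤ) : cur w a <:+ w := by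
  induction w with
  | nil => exact List.suffix_rfl
  | cons x w ih =>
    rw [cur]
    split_ifs
    exacts [List.suffix_rfl, ih.trans (List.suffix_cons x w)]

lemma cur_skip {u : List (ℤ × α)} {a : ℤ} (h : a ∉ u.map Prod.fst) (w : List (ℤ × α)) :
    cur (u ++ w) a = cur w a := by
  induction u with
  | nil => rfl
  | cons x u ih =>
    rw [List.map_cons, List.mem_cons, not_or] at h
    rw [List.cons_append, cur, if_neg (Ne.symm h.1), ih h.2]

lemma cur_long {u : List (ℤ × α)} {a : ℤ} (h : a ∈ u.map Prod.fst) (w : List (ℤ × α)) :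
    w.length < (cur (u ++ w) a).length ∧ lay (cur (u ++ w) a) = a := by
  induction u with
  | nil => simp at h
  | cons x u ih =>
    rw [List.cons_append, cur]
    split_ifs with e
    · exact ⟨by simp, e⟩
    · exact ih ((List.mem_cons.1 h).resolve_left (Ne.symm e))

lemma cur_fst {w w' : List (ℤ × α)} (h : w.map Prod.fst = w'.map Prod.fst) (a : ℤ) :
    (cur w a).map Prod.fst = (cur w' a).map Prod.fst := by
  induction w generalizing w' with
  | nil => rw [List.map_eq_nil_iff.1 h.symm]
  | cons x w ih =>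
    obtain _ | ⟨y, w'⟩ := w'
    · simp at h
    · have := List.cons.inj h
      rw [cur, cur, this.1]
      split_ifs
      exacts [h, ih this.2]

/-- A stop: new vertices in the layers `0, -1, 1, ..., -n, n`. -/
def st (b : Bool) (h : List (ℤ × Bool)) : ℕ → List (ℤ × Bool)
  | 0 => (0, b) :: h
  | n + 1 => (n + 1, false) :: (-(n + 1), false) :: st b h n

lemma st_fst {h h' : List (ℤ × Bool)} (e : h.map Prod.fst = h'.map Prod.fst) (b b' : Bool) (n : ℕ) :
    (st b h n).map Prod.fst = (st b' h' n).map Prod.fst := by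
  induction n with
  | zero => simp [st, e]
  | succ n ih => simp [st, ih]

lemma st_len (b : Bool) (h : List (ℤ × Bool)) (n : ℕ) :
    (st b h n).length = h.length + 2 * n + 1 := by
  induction n with
  | zero => rfl
  | succ n ih => simp [st, ih]; omega

lemma st_mem {b : Bool} {h : List (ℤ × Bool)} {n : ℕ} {x : ℤ × Bool} (hx : x ∈ st b h n) :
    x ∈ h ∨ (-n ≤ x.1 ∧ x.1 ≤ n) := by
  induction n with
  | zero => grind [st]
  | succ n ih => grind [st]

lemma st_out (b : Bool) (h : List (ℤ × Bool)) {n : ℕ} {z : ℤ} (hz : z < -n ∨ n < z) :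
    cur (st b h n) z = cur h z := by
  induction n with
  | zero => rw [st, cur, if_neg (by omega)]
  | succ n ih => rw [st, cur, if_neg (by omega), cur, if_neg (by omega), ih (by omega)]

lemma st_zero (b : Bool) (h : List (ℤ × Bool)) (n : ℕ) : cur (st b h n) 0 = (0, b) :: h := by
  induction n with
  | zero => simp [st, cur]
  | succ n ih => rw [st, cur, if_neg (by omega), cur, if_neg (by omega), ih]

lemma st_in (b : Bool) (h : List (ℤ × Bool)) {n : ℕ} {z : ℤ} (hz : -n ≤ z ∧ z ≤ n) :
    lay (cur (st b h n) z) = z ∧ (∀ y, |y| < |z| → cur (cur (st b h n) z) y = cur (st b h n) y) ∧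
      ∀ y, |z| < |y| → cur (cur (st b h n) z) y = cur h y := by
  induction n with
  | zero =>
    obtain rfl : z = 0 := by omega
    rw [st_zero]
    exact ⟨rfl, fun _ _ => rfl, fun y hy => st_out b h (n := 0) (by grind)⟩
  | succ n ih =>
    have e : ∀ y : ℤ, -n ≤ y ∧ y ≤ n → cur (st b h (n + 1)) y = cur (st b h n) y := fun y hy => by
      rw [st, cur, if_neg (by omega), cur, if_neg (by omega)]
    by_cases h1 : z = n + 1
    · have : cur (st b h (n + 1)) z = st b h (n + 1) := by rw [st, cur, if_pos h1.symm]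
      rw [this]
      exact ⟨h1.symm, fun _ _ => rfl, fun y hy => st_out b h (by grind)⟩
    · by_cases h2 : z = -(n + 1)
      · have : cur (st b h (n + 1)) z = (-(n + 1 : ℤ), false) :: st b h n := by
          rw [st, cur, if_neg (Ne.symm h1), cur, if_pos h2.symm]
        rw [this]
        refine ⟨h2.symm, fun y hy => ?_, fun y hy => ?_⟩
        · rw [cur, if_neg (by grind), e y (by grind)]
        · rw [cur, if_neg (by grind), st_out b h (by grind)]
      · obtain ⟨k1, k2, k3⟩ := ih (by omega)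
        rw [e z (by omega)]
        exact ⟨k1, fun y hy => by rw [k2 y hy, e y (by grind)], k3⟩

/-- Four crossings of the layers between `a` and `b`, glued at their ends. -/
lemma sq_of_four {R : V → V → Prop} {c : V → κ} {P : V → Prop} (g : ℕ → ℤ → V) (l : V → ℤ)
    {a b : ℤ} (hab : a < b) (hl : ∀ i z, a ≤ z → z ≤ b → l (g i z) = z ∧ P (g i z))
    (hR : ∀ i z, a ≤ z → z < b → R (g i z) (g i (z + 1)) ∨ R (g i (z + 1)) (g i z))
    (e1 : g 0 b = g 1 b) (e2 : g 1 a = g 2 a) (e3 : g 2 b = g 3 b)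
    (hne : ∀ i j z, i < j → j ≤ 3 → a < z → z < b → g i z ≠ g j z) (n1 : g 0 a ≠ g 2 a)
    (n2 : g 1 b ≠ g 3 b) (c1 : ∀ z, c (g 0 z) = c (g 2 z)) (c2 : ∀ z, c (g 1 z) = c (g 3 z)) :
    Sq R c P := by
  obtain ⟨d, rfl⟩ : ∃ d : ℕ, b = a + d := ⟨(b - a).toNat, by omega⟩
  let s : ℕ → ℕ := fun k => if k < d then 0 else if k < 2 * d then 1 else if k < 3 * d then 2 else 3
  let z : ℕ → ℤ := fun k => if k < d then a + k else if k < 2 * d then a + 2 * d - k else
    if k < 3 * d then a + k - 2 * d else a + 4 * d - k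
  have hz : ∀ k < 2 * d + 2 * d, a ≤ z k ∧ z k ≤ a + d := fun k hk => by
    simp only [z]
    split_ifs <;> omega
  have e : (List.range (2 * d)).map (fun k => g (s k) (z k)) ++
      (List.range (2 * d)).map (fun k => g (s (2 * d + k)) (z (2 * d + k))) =
      (List.range (2 * d + 2 * d)).map fun k => g (s k) (z k) := by
    rw [List.range_add, List.map_append, List.map_map]
    rfl
  refine ⟨(List.range (2 * d)).map (fun k => g (s k) (z k)),
    (List.range (2 * d)).map (fun k => g (s (2 * d + k)) (z (2 * d + k))), by simp; omega,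
    ?_, ?_, ?_, ?_⟩
  · have key : ∀ i j w w', (i = j ∧ w' = w + 1 ∧ a ≤ w ∧ w < a + d) ∨
        (i = j ∧ w = w' + 1 ∧ a ≤ w' ∧ w' < a + d) ∨ (i = 0 ∧ j = 1 ∧ w' = w + 1 ∧ w' = a + d) ∨
        (i = 1 ∧ j = 2 ∧ w = w' + 1 ∧ w' = a) ∨ (i = 2 ∧ j = 3 ∧ w' = w + 1 ∧ w' = a + d) →
        R (g i w) (g j w') ∨ R (g j w') (g i w) := by
      rintro i j w w' (⟨rfl, rfl, h, h'⟩ | ⟨rfl, rfl, h, h'⟩ | ⟨rfl, rfl, h, rfl⟩ |
        ⟨rfl, rfl, rfl, rfl⟩ | ⟨rfl, rfl, h, rfl⟩)
      · exact hR i w h h'
      · exact (hR i w' h h').symm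
      · rw [← e1, h]
        exact hR 0 w (by omega) (by omega)
      · rw [← e2]
        exact (hR 1 w' le_rfl hab).symm
      · rw [← e3, h]
        exact hR 2 w (by omega) (by omega)
    rw [e, List.isChain_map, List.isChain_range]
    intro k hk
    apply key
    simp only [s, z]
    split_ifs <;> omega
  · have key : ∀ k k', k < k' → k' < 2 * d + 2 * d → g (s k) (z k) ≠ g (s k') (z k') := by
      intro k k' h h' u
      have u1 : z k = z k' := by
        rw [← (hl (s k) _ (hz k (by omega)).1 (hz k (by omega)).2).1, u,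
          (hl _ _ (hz k' h').1 (hz k' h').2).1]
      rw [u1] at u
      have u2 : (s k < s k' ∧ s k' ≤ 3 ∧ a < z k' ∧ z k' < a + d) ∨
          (s k = 0 ∧ s k' = 2 ∧ z k' = a) ∨ (s k = 1 ∧ s k' = 3 ∧ z k' = a + d) := by
        simp only [s, z] at u1 ⊢
        split_ifs at u1 ⊢ <;> omega
      rcases u2 with ⟨v1, v2, v3, v4⟩ | ⟨v1, v2, v3⟩ | ⟨v1, v2, v3⟩
      · exact hne _ _ _ v1 v2 v3 v4 u
      · exact n1 (by rwa [v1, v2, v3] at u)
      · exact n2 (by rwa [v1, v2, v3] at u)
    rw [e]
    refine List.nodup_range.map_on fun k hk k' hk' u => ?_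
    rw [List.mem_range] at hk hk'
    rcases lt_trichotomy k k' with h | h | h
    exacts [absurd u (key k k' h hk'), h, absurd u.symm (key k' k h hk)]
  · intro v hv
    obtain ⟨k, hk, rfl⟩ := List.mem_map.1 (e ▸ hv)
    exact (hl _ _ (hz k (List.mem_range.1 hk)).1 (hz k (List.mem_range.1 hk)).2).2
  · rw [List.map_map, List.map_map]
    refine List.map_congr_left fun k hk => ?_
    rw [List.mem_range] at hk
    have u : z (2 * d + k) = z k ∧ (s k = 0 ∧ s (2 * d + k) = 2 ∨ s k = 1 ∧ s (2 * d + k) = 3) := by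
      simp only [s, z]
      split_ifs <;> omega
    simp only [Function.comp, u.1]
    rcases u.2 with ⟨v, v'⟩ | ⟨v, v'⟩ <;> rw [v, v']
    exacts [c1 _, c2 _]

/-- Short words over the layers from `-n` to `n`. -/
def Bd (n L : ℕ) (w : List (ℤ × α)) : Prop := w.length ≤ L ∧ ∀ x ∈ w, -n ≤ x.1 ∧ x.1 ≤ n

lemma Bd.suffix {n L : ℕ} {u w : List (ℤ × α)} (h : Bd n L w) (e : u <:+ w) : Bd n L u :=
  ⟨e.length_le.trans h.1, fun x hx => h.2 x (e.subset hx)⟩

/-- The colours of the current vertices before and after a stop. -/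
def dd (χ : List ℤ → κ) (n : ℕ) (h : List (ℤ × Bool)) (z : Finset.Icc (-n : ℤ) n) : κ × κ :=
  (χ ((cur h z).map Prod.fst), χ ((cur (st false h n) z).map Prod.fst))

lemma conflict {χ : List ℤ → κ} {n L : ℕ} {a b : ℤ} {h u u' : List (ℤ × Bool)}
    (ha : -n ≤ a ∧ a < 0) (hb : 0 < b ∧ b ≤ n) (h1 : a ∈ h.map Prod.fst)
    (h2 : a ∉ u.map Prod.fst) (h3 : b ∉ u.map Prod.fst) (h4 : a ∈ u'.map Prod.fst)
    (h5 : b ∉ u'.map Prod.fst) (k : ∀ β β', Bd n L (st β (u ++ (b, β') :: h) n))
    (k' : ∀ β β', Bd n L (st β (u' ++ (b, β') :: h) n))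
    (e : dd χ n (u ++ (b, false) :: h) = dd χ n (u' ++ (b, false) :: h)) :
    Sq Rel (fun w => χ (w.map Prod.fst)) (Bd (α := Bool) n L) := by
  let H : ℕ → List (ℤ × Bool) := fun i => if i = 0 then u' ++ (b, true) :: h else
    if i = 1 then u ++ (b, true) :: h else u ++ (b, false) :: h
  let S : ℕ → List (ℤ × Bool) := fun i => st (decide (i = 3)) (H i) n
  have hS : ∀ i, Bd n L (S i) := fun i => by
    simp only [S, H]
    split_ifs
    exacts [k' _ _, k _ _, k _ _]
  have hs : ∀ i, H i <:+ S i := fun i => (List.suffix_cons _ _).trans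
    (st_zero _ (H i) n ▸ cur_suffix _ 0)
  have cb : ∀ {v : List (ℤ × Bool)} (β), b ∉ v.map Prod.fst →
      cur (v ++ (b, β) :: h) b = (b, β) :: h := fun β hv => by rw [cur_skip hv, cur, if_pos rfl]
  have ca : ∀ β, cur (u ++ (b, β) :: h) a = cur h a := fun β => by
    rw [cur_skip h2, cur, if_neg (by omega)]
  have na : cur (u' ++ (b, true) :: h) a ≠ cur h a := fun v => by
    have := (cur_long h4 ((b, true) :: h)).1
    have := (cur_suffix h a).length_le
    simp_all
    omega
  have la : ∀ i, lay (cur (H i) a) = a := fun i => by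
    have := (cur_long h1 []).2
    rw [List.append_nil] at this
    simp only [H]
    split_ifs
    exacts [(cur_long h4 _).2, ca _ ▸ this, ca _ ▸ this]
  have lb : ∀ i, lay (cur (H i) b) = b := fun i => by
    simp only [H]
    split_ifs
    exacts [congrArg lay (cb _ h5), congrArg lay (cb _ h3), congrArg lay (cb _ h3)]
  have hin := fun i z (h1 : a ≤ z) (h2 : z ≤ b) =>
    st_in (decide (i = 3)) (H i) (n := n) (z := z) (by omega)
  refine sq_of_four (fun i z => if z = a ∨ z = b then cur (H i) z else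
    if a < z ∧ z < b then cur (S i) z else []) lay (a := a) (b := b) (by omega)
    (fun i z z1 z2 => ?_) (fun i z z1 z2 => ?_) ?_ ?_ ?_ (fun i j z z1 z2 z3 z4 => ?_) ?_ ?_
    (fun z => ?_) fun z => ?_
  · split_ifs with v v'
    · exact ⟨by rcases v with rfl | rfl; exacts [la i, lb i],
        (hS i).suffix ((cur_suffix _ _).trans (hs i))⟩
    · exact ⟨(hin i z z1 z2).1, (hS i).suffix (cur_suffix _ _)⟩
    · omega
  · obtain ⟨p1, p2, p3⟩ := hin i z z1 z2.le
    obtain ⟨q1, q2, q3⟩ := hin i (z + 1) (by omega) z2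
    by_cases v : z = a
    · subst v
      rw [if_pos (Or.inl rfl), if_neg (by omega), if_pos (by omega)]
      exact Or.inl ⟨by rw [la, q3 z (by grind)], Or.inr (by rw [la, q1])⟩
    · rw [if_neg (by omega), if_pos (by omega)]
      by_cases v' : z + 1 = b
      · subst v'
        rw [if_pos (Or.inr rfl)]
        exact Or.inr ⟨by rw [lb, p3 _ (by grind)], Or.inl (by rw [lb, p1])⟩
      · rw [if_neg (by omega), if_pos (by omega)]
        by_cases v'' : 0 ≤ z
        · exact Or.inl ⟨by rw [p1, q2 z (by grind)], Or.inr (by rw [p1, q1])⟩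
        · exact Or.inr ⟨by rw [q1, p2 _ (by grind)], Or.inl (by rw [p1, q1])⟩
  · simp [H, cb _ h3, cb _ h5]
  · simp [H, ca]
  · simp [H]
  · rw [if_neg (by omega), if_pos ⟨z3, z4⟩, if_neg (by omega), if_pos ⟨z3, z4⟩]
    intro v
    have root : ∀ i, cur (cur (S i) z) 0 = (0, decide (i = 3)) :: H i := fun i => by
      by_cases v : z = 0
      · simp [v, S, st_zero, cur]
      · rw [(hin i z z3.le z4.le).2.1 0 (by simpa using v), st_zero]
    have v1 := root i
    rw [v, root, List.cons.injEq, Prod.mk.injEq, decide_eq_decide] at v1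
    have v2 := congrArg (cur · a) v1.2
    have v3 := congrArg (cur · b) v1.2
    have : i = 0 ∨ i = 1 := by omega
    have : j = 1 ∨ j = 2 := by omega
    grind
  · simpa [H, ca] using na
  · simp [H, cb _ h3]
  · split_ifs with v v'
    · have := congrArg Prod.fst (congrFun e ⟨z, by grind⟩)
      exact (congrArg χ (cur_fst (by simp [H]) z)).trans this.symm
    · have := congrArg Prod.snd (congrFun e ⟨z, by grind⟩)
      exact (congrArg χ (cur_fst (st_fst (by simp [H]) _ _ n) z)).trans this.symm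
    · rfl
  · split_ifs with v v'
    · exact congrArg χ (cur_fst (by simp [H]) z)
    · exact congrArg χ (cur_fst (st_fst (by simp [H]) _ _ n) z)
    · rfl

lemma count [Fintype κ] {χ : List ℤ → κ} {n L : ℕ}
    (hno : ¬ Sq Rel (fun w => χ (w.map Prod.fst)) (Bd (α := Bool) n L)) (l : ℕ) (hl : l ≤ n)
    (A : Finset ℤ) (hA : ∀ a ∈ A, -n ≤ a ∧ a < 0) (hc : A.card = l) (g : List (ℤ × Bool))
    (hg : ∀ x ∈ g, -n ≤ x.1 ∧ x.1 ≤ n) (hL : g.length + l * (l + 1) + 2 * n + 1 ≤ L) :
    l.factorial ≤ {v | ∃ u : List (ℤ × Bool), (∀ z ∈ u.map Prod.fst, z ∈ A ∨ (0 < z ∧ z ≤ l)) ∧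
      (∀ a ∈ A, a ∈ u.map Prod.fst) ∧ u.length ≤ l * (l + 1) ∧ dd χ n (u ++ g) = v}.ncard := by
  classical
  induction l generalizing A g with
  | zero =>
    exact (Set.ncard_pos (Set.toFinite _)).2 ⟨_, [], by simp, by simp [Finset.card_eq_zero.1 hc],
      by simp, rfl⟩
  | succ l ih =>
    let h := A.toList.map (·, false) ++ g
    have hh : ∀ x ∈ h, -n ≤ x.1 ∧ x.1 ≤ n := by
      intro x hx
      rcases List.mem_append.1 hx with hx | hx
      · obtain ⟨a, ha, rfl⟩ := List.mem_map.1 hx
        have := hA a (Finset.mem_toList.1 ha)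
        omega
      · exact hg x hx
    have hm : ∀ a ∈ A, a ∈ (A.toList.map (·, false)).map Prod.fst := fun a ha => by simpa using ha
    have hlen : h.length = l + 1 + g.length := by simp [h, hc]
    have bd : ∀ a ∈ A, ∀ u : List (ℤ × Bool),
        (∀ z ∈ u.map Prod.fst, z ∈ A.erase a ∨ (0 < z ∧ z ≤ l)) → u.length ≤ l * (l + 1) →
        ∀ β β', Bd n L (st β (u ++ ((l : ℤ) + 1, β') :: h) n) := fun a ha u u1 u2 β β' => by
      refine ⟨by simp [st_len, hlen]; nlinarith, fun x hx => (st_mem hx).elim (fun v => ?_) id⟩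
      rcases List.mem_append.1 v with v | v
      · rcases u1 _ (List.mem_map_of_mem v) with w | w
        · have := hA _ (Finset.mem_of_mem_erase w)
          omega
        · omega
      · rcases List.mem_cons.1 v with rfl | v
        · omega
        · exact hh x v
    let T := fun a : ℤ => {v | ∃ u : List (ℤ × Bool),
      (∀ z ∈ u.map Prod.fst, z ∈ A.erase a ∨ (0 < z ∧ z ≤ l)) ∧
      (∀ b ∈ A.erase a, b ∈ u.map Prod.fst) ∧ u.length ≤ l * (l + 1) ∧
      dd χ n (u ++ ((l : ℤ) + 1, false) :: h) = v}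
    have hT : ∀ a ∈ A, l.factorial ≤ (T a).toFinset.card := fun a ha => by
      rw [← Set.ncard_eq_toFinset_card']
      refine ih (by omega) _ (fun b hb => hA b (Finset.mem_of_mem_erase hb))
        (by rw [Finset.card_erase_of_mem ha, hc]; rfl) (((l : ℤ) + 1, false) :: h)
        (fun x hx => ?_) (by simp [hlen]; nlinarith)
      rcases List.mem_cons.1 hx with rfl | hx
      · omega
      · exact hh x hx
    have hd : (A : Set ℤ).PairwiseDisjoint fun a => (T a).toFinset := by
      intro a ha a' ha' ne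
      refine Finset.disjoint_left.2 fun v v1 v2 => ?_
      obtain ⟨u, u1, -, u3, u4⟩ := Set.mem_toFinset.1 v1
      obtain ⟨u', w1, w2, w3, w4⟩ := Set.mem_toFinset.1 v2
      have := hA a ha
      have no : ∀ {a} {u : List (ℤ × Bool)}, (∀ z ∈ u.map Prod.fst,
          z ∈ A.erase a ∨ (0 < z ∧ z ≤ l)) → (l : ℤ) + 1 ∉ u.map Prod.fst := fun k v =>
        (k _ v).elim (fun w => by have := hA _ (Finset.mem_of_mem_erase w); omega) (by omega)
      exact hno (conflict (hA a ha) ⟨by omega, by omega⟩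
        (by rw [List.map_append]; exact List.mem_append_left _ (hm a ha))
        (fun v => (u1 a v).elim (by simp) (by omega)) (no u1)
        (w2 a (Finset.mem_erase.2 ⟨ne, ha⟩)) (no w1) (bd a ha u u1 u3) (bd a' ha' u' w1 w3)
        (u4.trans w4.symm))
    rw [Nat.factorial_succ, ← hc, ← smul_eq_mul]
    refine (Finset.card_nsmul_le_sum A _ _ hT).trans ?_
    rw [← Finset.card_biUnion hd, ← Set.ncard_coe_finset]
    refine Set.ncard_le_ncard (fun v hv => ?_) (Set.toFinite _)
    obtain ⟨a, ha, hv⟩ := Finset.mem_biUnion.1 hv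
    obtain ⟨u, u1, -, u3, u4⟩ := Set.mem_toFinset.1 hv
    refine ⟨u ++ ((l : ℤ) + 1, false) :: A.toList.map (·, false), fun z hz => ?_, fun b hb => ?_,
      by simp [hc]; nlinarith, by simpa [h] using u4⟩
    · rw [List.map_append, List.mem_append, List.map_cons, List.mem_cons] at hz
      rcases hz with hz | rfl | hz
      · exact (u1 z hz).imp Finset.mem_of_mem_erase (by omega)
      · omega
      · exact Or.inl (by simpa using hz)
    · rw [List.map_append]
      exact List.mem_append_right _ (List.mem_cons_of_mem _ (hm b hb))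

/-- Colourings that only see the layers have a repetitive path. -/
theorem exists_sq (q : ℕ) : ∃ n L : ℕ, ∀ χ : List ℤ → Fin q,
    Sq Rel (fun w => χ (w.map Prod.fst)) (Bd (α := Bool) n L) := by
  obtain ⟨n, hn⟩ := (Nat.eventually_mul_pow_lt_factorial_sub (q * q) ((q * q) ^ 2) 0).exists
  refine ⟨n, n * (n + 1) + 2 * n + 1, fun χ => ?_⟩
  by_contra hno
  have := (count hno n le_rfl (Finset.Ico (-n) 0) (fun a ha => Finset.mem_Ico.1 ha) (by simp) []
    (by simp) (by simp)).trans (Set.ncard_le_card _)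
  rw [Nat.card_eq_fintype_card, Fintype.card_fun, Fintype.card_prod, Fintype.card_fin,
    Fintype.card_coe, Int.card_Icc, show ((n : ℤ) + 1 - -n).toNat = 2 * n + 1 by omega, pow_succ',
    pow_mul] at this
  exact absurd hn (not_lt.2 this)

end Pool.Agent.Lib.MP_e7c4c5_co.Lt
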